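import Pool.Agent.Y968.LQ.CenA
import Pool.Agent.Helper702.SF.P_partII
import Pool.Agent.Helper702.SF.P_map_lhs
import Pool.Agent.Helper702.SF.P_map_rhs
import Pool.Agent.Y208.LQ.Stm

/-!
The centre of the finitely presented simple algebra is the base field.
-/

set_option autoImplicit false

open scoped TensorProduct

namespace Pool.Agent.Y968.LQ

open Pool.SF Turing

section bc

variable {F K : Type} [Field F] [Field K] [Algebra F K]

/-- base change of a noncommutative polynomial -/
noncomputable def bc (F K : Type) [Field F] [Field K] [Algebra F K] {G : Type}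
    (p : FreeAlgebra F G) : FreeAlgebra K G := FreeAlgebra.lift F (FreeAlgebra.ι K) p

theorem lift_bc {G A : Type} [Ring A] [Algebra F A] [Algebra K A] [IsScalarTower F K A]
    (a : G → A) (p : FreeAlgebra F G) :
    FreeAlgebra.lift K a (bc F K p) = FreeAlgebra.lift F a p := by
  have h : ((FreeAlgebra.lift K a).restrictScalars F).comp
      (FreeAlgebra.lift F (FreeAlgebra.ι K)) = FreeAlgebra.lift F a := by
    apply FreeAlgebra.hom_ext
    funext g
    simp
  exact DFunLike.congr_fun h p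

theorem adjoin_bc {A ι : Type} [Ring A] [Algebra F A] (f : ι → A)
    (hf : Algebra.adjoin F (Set.range f) = ⊤) :
    Algebra.adjoin K (Set.range (fun g => (1 : K) ⊗ₜ[F] f g)) = ⊤ := by
  rw [eq_top_iff]
  intro x _
  have key : ∀ a : A, (1 : K) ⊗ₜ[F] a ∈
      Algebra.adjoin K (Set.range (fun g => (1 : K) ⊗ₜ[F] f g)) := by
    intro a
    have ha : a ∈ Algebra.adjoin F (Set.range f) := by rw [hf]; exact Algebra.mem_top
    induction ha using Algebra.adjoin_induction with
    | mem x hx =>
      obtain ⟨g, rfl⟩ := hx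
      exact Algebra.subset_adjoin ⟨g, rfl⟩
    | algebraMap r =>
      have e : (1 : K) ⊗ₜ[F] (algebraMap F A r) = algebraMap K (K ⊗[F] A) (algebraMap F K r) := by
        rw [Algebra.TensorProduct.algebraMap_apply, Algebra.algebraMap_eq_smul_one (A := A),
          Algebra.algebraMap_self, RingHom.id_apply, Algebra.algebraMap_eq_smul_one (A := K),
          TensorProduct.smul_tmul]
      rw [e]
      exact Subalgebra.algebraMap_mem _ _
    | add x y _ _ hx hy =>
      rw [TensorProduct.tmul_add]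
      exact Subalgebra.add_mem _ hx hy
    | mul x y _ _ hx hy =>
      have e : (1 : K) ⊗ₜ[F] (x * y) = ((1 : K) ⊗ₜ[F] x) * ((1 : K) ⊗ₜ[F] y) := by
        rw [Algebra.TensorProduct.tmul_mul_tmul, one_mul]
      rw [e]
      exact Subalgebra.mul_mem _ hx hy
  induction x using TensorProduct.induction_on with
  | zero => exact Subalgebra.zero_mem _
  | tmul k a =>
    have e : k ⊗ₜ[F] a = k • ((1 : K) ⊗ₜ[F] a) := by
      rw [TensorProduct.smul_tmul', smul_eq_mul, mul_one]
    rw [e]
    exact Subalgebra.smul_mem _ (key a) k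
  | add x y hx hy => exact Subalgebra.add_mem _ (hx trivial) (hy trivial)

end bc

section rel

variable {F : Type} [Field F] {G Γ Λ : Type} [Fintype G] [DecidableEq G] [Fintype Γ]
  [DecidableEq Γ] [Inhabited Γ] [Fintype Λ] [DecidableEq Λ] [Inhabited Λ]

theorem mkEl_bc {K A : Type} [Field K] [Algebra F K] [Ring A] [Algebra F A] [Algebra K A]
    [IsScalarTower F K A] (M : TM0.Machine Γ Λ) (cd : G ⊕ Bool → List Γ) (top : List Γ)
    (tp tp' : KK G Γ Λ → FreeAlgebra F G) (f : Gn G (Gl G) (Stt Λ) (Ex Γ) → A) :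
    mkEl M cd top (fun j => bc F K (tp j)) (fun j => bc F K (tp' j)) f =
      mkEl M cd top tp tp' f := by
  unfold mkEl
  simp only [lift_bc]

/-- scalar extensions of the algebra are simple -/
theorem simple_bc_of_rel {B C : Type} [Ring B] [Algebra F B] [Ring C] [Algebra F C]
    [IsSimpleRing C] (hcen : ∀ z : C, (∀ c, z * c = c * z) → ∃ r : F, algebraMap F C r = z)
    {N : ℕ} (idx : KK G Γ Λ ≃ Fin N) (hk : (idx .kill : ℕ) = 0) (hn : (idx .noop : ℕ) = 1)
    (M : TM0.Machine Γ Λ) (cd : G ⊕ Bool → List Γ) (top : List Γ)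
    (tp tp' : KK G Γ Λ → FreeAlgebra F G) (f : Gn G (Gl G) (Stt Λ) (Ex Γ) → B)
    (h : ∀ r, lhs (mkEl M cd top tp tp' f) r = rhs idx (mkEl M cd top tp tp' f) r)
    (hf : Algebra.adjoin F (Set.range f) = ⊤)
    (γ : C →ₐ[F] B) (cgen : G → C) (hγ : ∀ g, γ (cgen g) = f (.c g))
    (hcgen : Algebra.adjoin F (Set.range cgen) = ⊤)
    (ht : Orth (fun j => FreeAlgebra.lift F cgen (tp j)) (fun j => FreeAlgebra.lift F cgen (tp' j)))
    [Nontrivial B] (K : Type) [Field K] [Algebra F K] : IsSimpleRing (K ⊗[F] B) := by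
  have i1 : IsSimpleRing (K ⊗[F] C) := simple_bc hcen
  have i2 : Nontrivial (K ⊗[F] B) :=
    Algebra.TensorProduct.nontrivial_of_algebraMap_injective_of_flat_left F K B
      (FaithfulSMul.algebraMap_injective F B)
  refine simple_of_rel (F := K) (B := K ⊗[F] B) (C := K ⊗[F] C) (ctr_bc hcen) idx hk hn M cd top
    (fun j => bc F K (tp j)) (fun j => bc F K (tp' j)) (fun g => (1 : K) ⊗ₜ[F] f g) ?_
    (adjoin_bc f hf) (Algebra.TensorProduct.map (AlgHom.id K K) γ)
    (fun g => (1 : K) ⊗ₜ[F] cgen g) ?_ (adjoin_bc cgen hcgen) ?_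
  · intro r
    rw [mkEl_bc]
    have h1 := map_lhs (Algebra.TensorProduct.includeRight : B →ₐ[F] K ⊗[F] B) M cd top tp tp' f r
    have h2 := map_rhs (Algebra.TensorProduct.includeRight : B →ₐ[F] K ⊗[F] B) idx M cd top tp tp' f r
    rw [h r] at h1
    exact h1.symm.trans h2
  · intro g
    rw [Algebra.TensorProduct.map_tmul, hγ]
    rfl
  · intro i j
    simp only [lift_bc]
    have h1 := map_rhs_lift (Algebra.TensorProduct.includeRight : C →ₐ[F] K ⊗[F] C) cgen (tp' i)
    have h2 := map_rhs_lift (Algebra.TensorProduct.includeRight : C →ₐ[F] K ⊗[F] C) cgen (tp j)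
    have h3 := congrArg (Algebra.TensorProduct.includeRight : C →ₐ[F] K ⊗[F] C) (ht i j)
    simp only [map_mul] at h3
    rw [h1, h2] at h3
    simp only [Algebra.TensorProduct.includeRight_apply] at h3
    rw [h3]
    split_ifs
    · rfl
    · exact TensorProduct.tmul_zero _ _

end rel

section target

variable {F : Type} [Field F] {G : Type} [Fintype G] [DecidableEq G] [Primcodable G]

/-- Part II, with the centre. -/
theorem partII_cen (rel : ℕ → List (Bool × List G)) (hrel : Computable rel)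
    (hsim : IsSimpleRing (CC F rel))
    (hcen : ∀ z : CC F rel, (∀ c, z * c = c * z) → ∃ r : F, algebraMap F (CC F rel) r = z)
    (hO : ∀ (K : Type) [Fintype K] [DecidableEq K], ∃ tp tp' : K → FreeAlgebra F G,
      Orth (fun j => RingQuot.mkAlgHom F (relC F rel) (tp j))
        (fun j => RingQuot.mkAlgHom F (relC F rel) (tp' j))) :
    ∃ (B : Type) (_ : Ring B) (_ : Algebra F B), FinPres F B ∧ IsSimpleRing B ∧
      (∀ z : B, (∀ c, z * c = c * z) → ∃ r : F, algebraMap F B r = z) ∧
      ∃ φ : CC F rel →ₐ[F] B, Function.Injective φ := by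
  obtain ⟨Λ, i1, i2, i3, M, e, hM⟩ := exists_machine_rel rel hrel
  have hdec : DecidableEq TA := Classical.decEq _
  have hfK : Fintype PartrecToTM2.K' :=
    ⟨{.main, .rev, .aux, .stack}, by intro x; cases x <;> decide⟩
  have hfT : Fintype TA := inferInstance
  obtain ⟨N, idx, hk, hn⟩ := exists_idx G (Gl G) (Stt Λ) (Ex TA)
  obtain ⟨tp, tp', ht⟩ := hO (KK G TA Λ)
  let cgen : G → CC F rel := fun g => RingQuot.mkAlgHom F (relC F rel) (FreeAlgebra.ι F g)
  have hlift : FreeAlgebra.lift F cgen = RingQuot.mkAlgHom F (relC F rel) := by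
    apply FreeAlgebra.hom_ext
    funext g
    simp [cgen]
  have ht' : Orth (fun j => FreeAlgebra.lift F cgen (tp j))
      (fun j => FreeAlgebra.lift F cgen (tp' j)) := by
    rw [hlift]
    exact ht
  have hev : ∀ i, ev cgen (rel i) = 0 := by
    intro i
    have h1 := map_ev_aux (RingQuot.mkAlgHom F (relC F rel)).toRingHom (FreeAlgebra.ι F) (rel i)
    have h2 : RingQuot.mkAlgHom F (relC F rel) (ev (FreeAlgebra.ι F) (rel i)) =
        RingQuot.mkAlgHom F (relC F rel) 0 := RingQuot.mkAlgHom_rel F ⟨i, rfl, rfl⟩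
    rw [map_zero] at h2
    exact h1.symm.trans h2
  have hs : ∀ w, (StateTransition.eval (TM0.step M) (TM0.init (topT ++ tapeR (cdT e) w))).Dom →
      sv cgen w = 0 := by
    intro w hw
    obtain ⟨i, rfl⟩ := (hM w).1 hw
    rw [sv_spl]
    exact hev i
  have : Nontrivial (BB (F := F) idx M (cdT e) topT tp tp') :=
    nontriv idx M (cdT e) topT tp tp' cgen ht' hs
  let f : Gn G (Gl G) (Stt Λ) (Ex TA) → BB (F := F) idx M (cdT e) topT tp tp' :=
    fun g => RingQuot.mkAlgHom F (Rln (F := F) idx M (cdT e) topT tp tp') (FreeAlgebra.ι F g)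
  have hB : ∀ r, lhs (mkEl M (cdT e) topT tp tp' f) r = rhs idx (mkEl M (cdT e) topT tp tp' f) r :=
    fun r => B_rel idx M (cdT e) topT tp tp' r
  have hγ0 : ∀ ⦃x y : FreeAlgebra F G⦄, relC F rel x y →
      FreeAlgebra.lift F (fun g => f (.c g)) x = FreeAlgebra.lift F (fun g => f (.c g)) y := by
    rintro x y ⟨i, rfl, rfl⟩
    rw [map_zero]
    have h1 := map_ev_aux (FreeAlgebra.lift F (fun g => f (.c g))).toRingHom (FreeAlgebra.ι F) (rel i)
    have h2 : (fun g => (FreeAlgebra.lift F (fun g => f (.c g))).toRingHom (FreeAlgebra.ι F g)) =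
        fun g => f (.c g) := by
      funext g
      exact FreeAlgebra.lift_ι_apply _ _
    rw [h2] at h1
    have h3 := rel_zero idx M (cdT e) topT tp tp' f hB (spl (rel i)) ((hM _).2 ⟨i, rfl⟩)
    rw [sv_spl] at h3
    exact h1.trans h3
  let γ : CC F rel →ₐ[F] BB (F := F) idx M (cdT e) topT tp tp' :=
    RingQuot.liftAlgHom F ⟨FreeAlgebra.lift F (fun g => f (.c g)), hγ0⟩
  have hγ : ∀ g, γ (cgen g) = f (.c g) := by
    intro g
    show RingQuot.liftAlgHom F _ (RingQuot.mkAlgHom F (relC F rel) (FreeAlgebra.ι F g)) = _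
    rw [RingQuot.liftAlgHom_mkAlgHom_apply]
    exact FreeAlgebra.lift_ι_apply _ _
  have hf : Algebra.adjoin F (Set.range f) = ⊤ := by
    have h1 : Set.range f = (RingQuot.mkAlgHom F (Rln (F := F) idx M (cdT e) topT tp tp')) ''
        Set.range (FreeAlgebra.ι F) := by
      rw [← Set.range_comp]
      rfl
    rw [h1, ← AlgHom.map_adjoin, FreeAlgebra.adjoin_range_ι, Algebra.map_top,
      AlgHom.range_eq_top]
    exact RingQuot.mkAlgHom_surjective F _
  have hcgen : Algebra.adjoin F (Set.range cgen) = ⊤ := by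
    have h1 : Set.range cgen = (RingQuot.mkAlgHom F (relC F rel)) ''
        Set.range (FreeAlgebra.ι F) := by
      rw [← Set.range_comp]
      rfl
    rw [h1, ← AlgHom.map_adjoin, FreeAlgebra.adjoin_range_ι, Algebra.map_top,
      AlgHom.range_eq_top]
    exact RingQuot.mkAlgHom_surjective F _
  have hsimB : IsSimpleRing (BB (F := F) idx M (cdT e) topT tp tp') :=
    simple_of_rel hcen idx hk hn M (cdT e) topT tp tp' f hB hf γ cgen hγ hcgen ht'
  have hcB : Ctr F (BB (F := F) idx M (cdT e) topT tp tp') := by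
    apply ctr_of_bc
    intro K _ _
    exact simple_bc_of_rel hcen idx hk hn M (cdT e) topT tp tp' f hB hf γ cgen hγ hcgen ht' K
  refine ⟨BB (F := F) idx M (cdT e) topT tp tp', inferInstance, inferInstance, ?_, hsimB, hcB,
    γ, ?_⟩
  · exact finPres_of (F := F)
      (fun r => lhs (mkEl M (cdT e) topT tp tp' (FreeAlgebra.ι F)) r)
      (fun r => rhs idx (mkEl M (cdT e) topT tp tp' (FreeAlgebra.ι F)) r)
  · exact RingHom.injective γ.toRingHom

end target

theorem t_CEN : Y208.LQ.S_CEN := by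
  intro F _ G _ _ _ rel hrel hsim hcen hO
  exact partII_cen rel hrel hsim hcen hO

end Pool.Agent.Y968.LQ
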