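import Mathlib
import Pool.Agent.Helper18.Br.TensorCSA

/-!
The centre of a simple algebra all of whose scalar extensions are simple.
-/

set_option autoImplicit false

open scoped TensorProduct

namespace Pool.Agent.Y968.LQ

/-- all elements commuting with everything are scalars -/
def Ctr (F A : Type) [Field F] [Ring A] [Algebra F A] : Prop :=
  ∀ z : A, (∀ c, z * c = c * z) → ∃ r : F, algebraMap F A r = z

theorem isCentral_of_ctr {F A : Type} [Field F] [Ring A] [Algebra F A] (h : Ctr F A) :
    Algebra.IsCentral F A :=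
  ⟨fun z hz => by
    rw [Subalgebra.mem_center_iff] at hz
    obtain ⟨r, hr⟩ := h z (fun c => (hz c).symm)
    exact Algebra.mem_bot.2 ⟨r, hr⟩⟩

variable {F K C : Type} [Field F] [Field K] [Algebra F K] [Ring C] [Algebra F C]

theorem simple_bc [IsSimpleRing C] (h : Ctr F C) : IsSimpleRing (K ⊗[F] C) := by
  haveI := isCentral_of_ctr h
  haveI : IsSimpleRing (C ⊗[F] K) := Pool.Agent.Helper18.Br.isSimple_tensor
  exact IsSimpleRing.of_ringEquiv (Algebra.TensorProduct.comm F C K).toRingEquiv inferInstance

theorem ctr_bc [Nontrivial C] (h : Ctr F C) : Ctr K (K ⊗[F] C) := by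
  classical
  intro z hz
  have b := Module.Basis.ofVectorSpace F K
  let e := Algebra.TensorProduct.comm F K C
  have hz' : ∀ c : C ⊗[F] K, e z * c = c * e z := by
    intro c
    have h1 := congrArg e (hz (e.symm c))
    rwa [map_mul, map_mul, AlgEquiv.apply_symm_apply] at h1
  obtain ⟨m, hm⟩ := Pool.Agent.Helper18.Br.exists_one_tmul b (e z) (fun i => by
    apply h
    intro c
    rw [← Pool.Agent.Helper18.Br.co_right, ← Pool.Agent.Helper18.Br.co_left, hz'])
  refine ⟨m, ?_⟩
  apply e.injective
  rw [hm, Algebra.TensorProduct.algebraMap_apply]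
  simp [e]

/-- a linear functional vanishing at `1` but not at `z` -/
theorem exists_functional {F B : Type} [Field F] [Ring B] [Algebra F B] {z : B}
    (h : ∀ r : F, algebraMap F B r ≠ z) : ∃ ψ : B →ₗ[F] F, ψ 1 = 0 ∧ ψ z = 1 := by
  have hz : z ∉ Submodule.span F {(1 : B)} := by
    intro hm
    obtain ⟨r, hr⟩ := Submodule.mem_span_singleton.1 hm
    exact h r (by rw [Algebra.algebraMap_eq_smul_one, hr])
  obtain ⟨f, hf, hk⟩ := Submodule.exists_le_ker_of_notMem hz
  have h1 : f 1 = 0 := hk (Submodule.mem_span_singleton_self _)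
  refine ⟨(f z)⁻¹ • f, ?_, ?_⟩
  · rw [LinearMap.smul_apply, h1, smul_zero]
  · rw [LinearMap.smul_apply, smul_eq_mul, inv_mul_cancel₀ hf]

/-- the centre of a simple algebra whose scalar extensions are simple -/
theorem ctr_of_bc {F B : Type} [Field F] [Ring B] [Algebra F B] [IsSimpleRing B]
    (h : ∀ (K : Type) [Field K] [Algebra F K], IsSimpleRing (K ⊗[F] B)) : Ctr F B := by
  classical
  intro z hz
  letI iK : Field (Subring.center B) := (IsSimpleRing.isField_center B).toField
  let f0 : F →+* Subring.center B :=
    { toFun := fun r => ⟨algebraMap F B r, Subring.mem_center_iff.2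
        (fun c => (Algebra.commutes r c).symm)⟩
      map_one' := Subtype.ext (map_one _)
      map_zero' := Subtype.ext (map_zero _)
      map_add' := fun a b => Subtype.ext (map_add _ a b)
      map_mul' := fun a b => Subtype.ext (map_mul _ a b) }
  letI : Algebra F (Subring.center B) := f0.toAlgebra
  let ι : Subring.center B →ₐ[F] B :=
    { toFun := fun x => x.1
      map_one' := rfl
      map_zero' := rfl
      map_add' := fun a b => rfl
      map_mul' := fun a b => rfl
      commutes' := fun r => rfl }
  haveI := h (Subring.center B)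
  let μ : Subring.center B ⊗[F] B →ₐ[F] B := Algebra.TensorProduct.lift ι (AlgHom.id F B)
    (fun x y => (Subring.mem_center_iff.1 x.2 y).symm)
  have hμ : Function.Injective μ := RingHom.injective μ.toRingHom
  let k : Subring.center B := ⟨z, Subring.mem_center_iff.2 (fun c => (hz c).symm)⟩
  have h1 : k ⊗ₜ[F] (1 : B) = 1 ⊗ₜ[F] z := by
    apply hμ
    simp only [μ, Algebra.TensorProduct.lift_tmul, map_one, mul_one, one_mul]
    rfl
  by_contra hcon
  push Not at hcon
  obtain ⟨ψ, hψ1, hψz⟩ := exists_functional hcon
  have h2 := congrArg (TensorProduct.map (LinearMap.id : Subring.center B →ₗ[F] Subring.center B) ψ) h1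
  rw [TensorProduct.map_tmul, TensorProduct.map_tmul, hψ1, hψz, TensorProduct.tmul_zero] at h2
  have h3 := congrArg (TensorProduct.rid F (Subring.center B)) h2
  rw [map_zero, LinearMap.id_apply, TensorProduct.rid_tmul, one_smul] at h3
  exact one_ne_zero h3.symm

end Pool.Agent.Y968.LQ
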